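import Pool.Agent.Y522.Stm6

/-!
# Project SH3: the mollification with variable radius is smooth
-/

set_option autoImplicit false

open Set Filter Topology Metric Function MeasureTheory
open scoped Manifold ContDiff Convolution

noncomputable section

namespace Pool.Agent.Y954.SH

open Pool.Agent.Y522

variable {n : ℕ}

lemma kr_smooth : ContDiff ℝ ∞ (kr n) := by
  unfold kr
  exact (bmp n).contDiff_normed

lemma kr_neg (s : E n) : kr n (-s) = kr n s := by
  unfold kr
  exact ContDiffBump.normed_neg (bmp n) s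

lemma kr_zero {s : E n} (hs : 1 ≤ ‖s‖) : kr n s = 0 := by
  unfold kr ContDiffBump.normed
  rw [(bmp n).zero_of_le_dist (by rw [dist_zero_right]; exact hs), zero_div]

lemma kr_int : ∫ s, kr n s = 1 := by
  unfold kr
  exact (bmp n).integral_normed

lemma kr_nonneg (s : E n) : 0 ≤ kr n s := by
  unfold kr
  exact (bmp n).nonneg_normed s

lemma kr_integrable : Integrable (kr n) := by
  unfold kr
  exact (bmp n).integrable_normed

lemma kr_lt {s : E n} (hs : kr n s ≠ 0) : ‖s‖ < 1 := by
  by_contra h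
  exact hs (kr_zero (not_lt.1 h))

/-- the mollification only depends on the values near `z` -/
lemma moll_congr {G G' : E n → E n} {c c' : E n → ℝ} {z : E n}
    (h : ∀ s, ‖s‖ < 1 → G (z + c z • s) = G' (z + c' z • s)) : Moll n G c z = Moll n G' c' z := by
  unfold Moll
  congr 1
  funext s
  by_cases hs : kr n s = 0
  · rw [hs, zero_smul, zero_smul]
  · rw [h s (kr_lt hs)]

lemma moll_const {G : E n → E n} {c : E n → ℝ} {z : E n} (h : c z = 0) :
    Moll n G c z = G z := by
  unfold Moll
  have : ∀ s, kr n s • G (z + c z • s) = kr n s • G z := by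
    intro s
    rw [h, zero_smul, add_zero]
  simp only [this]
  rw [integral_smul_const, kr_int, one_smul]

/-- continuity -/
lemma moll_cont {G : E n → E n} {c : E n → ℝ} (hG : ContinuousOn G (closedBall 0 2))
    (hc : Continuous c) (h0 : ∀ z, 0 ≤ c z) (h1 : ∀ z, c z ≤ 1 / 4) :
    ContinuousOn (Moll n G c) (closedBall 0 (3 / 2)) := by
  obtain ⟨C, hC⟩ := (isCompact_closedBall (0 : E n) 2).exists_bound_of_continuousOn hG
  have hin : ∀ z ∈ closedBall (0 : E n) (3 / 2), ∀ s : E n, ‖s‖ ≤ 1 →
      z + c z • s ∈ closedBall (0 : E n) 2 := by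
    intro z hz s hs
    rw [mem_closedBall_zero_iff] at hz ⊢
    calc ‖z + c z • s‖ ≤ ‖z‖ + ‖c z • s‖ := norm_add_le _ _
      _ = ‖z‖ + c z * ‖s‖ := by rw [norm_smul, Real.norm_of_nonneg (h0 z)]
      _ ≤ 3 / 2 + 1 / 4 * 1 := by
          gcongr
          exact h1 z
      _ ≤ 2 := by norm_num
  have hC0 : ∀ z ∈ closedBall (0 : E n) (3 / 2), 0 ≤ C := fun z hz =>
    (norm_nonneg _).trans (hC _ (hin z hz 0 (by simp)))
  unfold Moll
  apply MeasureTheory.continuousOn_of_dominated (bound := fun s => kr n s * C)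
  · intro z hz
    have : (fun s => kr n s • G (z + c z • s)) =
        (closedBall (0 : E n) 1).indicator (fun s => kr n s • G (z + c z • s)) := by
      funext s
      by_cases hs : s ∈ closedBall (0 : E n) 1
      · rw [indicator_of_mem hs]
      · rw [indicator_of_notMem hs]
        rw [mem_closedBall_zero_iff, not_le] at hs
        rw [kr_zero hs.le, zero_smul]
    rw [this, aestronglyMeasurable_indicator_iff measurableSet_closedBall]
    apply ContinuousOn.aestronglyMeasurable _ measurableSet_closedBall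
    apply ContinuousOn.smul kr_smooth.continuous.continuousOn
    apply hG.comp (by fun_prop)
    intro s hs
    exact hin z hz s (mem_closedBall_zero_iff.1 hs)
  · intro z hz
    apply Eventually.of_forall
    intro s
    rw [norm_smul, Real.norm_of_nonneg (kr_nonneg s)]
    by_cases hs : kr n s = 0
    · rw [hs]; simp
    · gcongr
      · exact kr_nonneg s
      · exact hC _ (hin z hz s (kr_lt hs).le)
  · exact kr_integrable.mul_const C
  · apply Eventually.of_forall
    intro s
    by_cases hs : kr n s = 0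
    · simp only [hs, zero_smul]
      exact continuousOn_const
    · have b1 : ContinuousOn (fun z => G (z + c z • s)) (closedBall 0 (3 / 2)) := by
        apply hG.comp
        · have : Continuous (fun z => z + c z • s) := by fun_prop
          exact this.continuousOn
        · intro z hz
          exact hin z hz s (kr_lt hs).le
      exact b1.const_smul (kr n s)

/-- the scaled kernel -/
def gk (n : ℕ) (r : ℝ) (w : E n) : ℝ := (r ^ n)⁻¹ * kr n (r⁻¹ • w)

/-- the bilinear map -/
def LL (n : ℕ) : E n →L[ℝ] ℝ →L[ℝ] E n := (ContinuousLinearMap.lsmul ℝ ℝ).flip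

lemma LL_apply (v : E n) (a : ℝ) : LL n v a = a • v := by
  simp [LL]

/-- substitution -/
lemma moll_conv (G : E n → E n) (y : E n) {r : ℝ} (hr : 0 < r) :
    ∫ s, kr n s • G (y + r • s) = (G ⋆[LL n, volume] gk n r) y := by
  unfold convolution
  simp only [LL_apply]
  have h1 : ∫ t, gk n r (y - t) • G t = ∫ t, gk n r (-t) • G (y + t) := by
    rw [← integral_add_left_eq_self (fun t => gk n r (y - t) • G t) y]
    congr 1
    funext t
    rw [sub_add_cancel_left]
  rw [h1]
  have h2 := Measure.integral_comp_smul_of_nonneg (volume : Measure (E n))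
    (fun t => gk n r (-t) • G (y + t)) r (hR := hr.le)
  rw [finrank_euclideanSpace, Fintype.card_fin] at h2
  have h3 : ∀ s : E n, gk n r (-(r • s)) • G (y + r • s) =
      (r ^ n)⁻¹ • (kr n s • G (y + r • s)) := by
    intro s
    unfold gk
    rw [smul_neg, kr_neg, smul_smul, inv_mul_cancel₀ hr.ne', one_smul, smul_smul]
  simp only [h3] at h2
  rw [integral_smul] at h2
  exact smul_right_injective _ (inv_ne_zero (pow_ne_zero n hr.ne')) h2

/-- smoothness where the radius is positive -/
lemma moll_pos {G : E n → E n} {c : E n → ℝ} (hG : ContinuousOn G (closedBall 0 2))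
    (hc : ContDiff ℝ ∞ c) (h1 : ∀ z, c z ≤ 1 / 4) (h2 : ∀ z, 1 < ‖z‖ → c z = 0) {z : E n}
    (hz : 0 < c z) : ContDiffAt ℝ ∞ (Moll n G c) z := by
  obtain ⟨G₁, hG₁⟩ : ∃ G₁, G₁ = (closedBall (0 : E n) 2).indicator G := ⟨_, rfl⟩
  have hint : Integrable G₁ := by
    rw [hG₁, integrable_indicator_iff measurableSet_closedBall]
    exact hG.integrableOn_compact (isCompact_closedBall _ _)
  obtain ⟨s, hs⟩ : ∃ s, s = {y : E n | 0 < c y} := ⟨_, rfl⟩
  have hso : IsOpen s := by rw [hs]; exact isOpen_lt continuous_const hc.continuous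
  have hzs : z ∈ s := by rw [hs]; exact hz
  have hg : ContDiffOn ℝ ∞ (fun q : E n × E n => gk n (c q.1) q.2) (s ×ˢ univ) := by
    unfold gk
    have e1 : ContDiffOn ℝ ∞ (fun q : E n × E n => c q.1) (s ×ˢ univ) :=
      (hc.comp contDiff_fst).contDiffOn
    have e0 : ∀ q ∈ s ×ˢ (univ : Set (E n)), c q.1 ≠ 0 := by
      rintro q ⟨hq, -⟩
      rw [hs] at hq
      exact (ne_of_gt hq)
    apply ContDiffOn.mul
    · exact (e1.pow n).inv fun q hq => pow_ne_zero n (e0 q hq)
    · apply kr_smooth.comp_contDiffOn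
      exact (e1.inv e0).smul contDiff_snd.contDiffOn
  have key := contDiffOn_convolution_right_with_param_comp (μ := (volume : Measure (E n)))
    (f := G₁) (g := fun y => gk n (c y)) (k := closedBall (0 : E n) 1) (v := fun y => y) (s := s)
    (n := ⊤) (LL n) contDiffOn_id hso (isCompact_closedBall _ _) (by
      intro y x hy hx
      rw [mem_closedBall_zero_iff, not_le] at hx
      rw [hs] at hy
      have hy' : 0 < c y := hy
      show gk n (c y) x = 0
      unfold gk
      rw [kr_zero, mul_zero]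
      rw [norm_smul, norm_inv, Real.norm_of_nonneg hy'.le, inv_mul_eq_div, le_div_iff₀ hy']
      linarith [h1 y]) hint.locallyIntegrable hg
  have h3 : ContDiffAt ℝ ∞ (fun y => (G₁ ⋆[LL n, volume] gk n (c y)) y) z :=
    (key z hzs).contDiffAt (hso.mem_nhds hzs)
  apply h3.congr_of_eventuallyEq
  filter_upwards [hso.mem_nhds hzs] with y hy
  rw [hs] at hy
  have hy' : 0 < c y := hy
  have hy1 : ‖y‖ ≤ 1 := by
    by_contra h
    rw [h2 y (not_le.1 h)] at hy'
    exact lt_irrefl _ hy'
  rw [← moll_conv G₁ y hy']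
  unfold Moll
  congr 1
  funext s
  by_cases hs : kr n s = 0
  · rw [hs, zero_smul, zero_smul]
  · rw [hG₁, indicator_of_mem]
    rw [mem_closedBall_zero_iff]
    calc ‖y + c y • s‖ ≤ ‖y‖ + ‖c y • s‖ := norm_add_le _ _
      _ = ‖y‖ + c y * ‖s‖ := by rw [norm_smul, Real.norm_of_nonneg hy'.le]
      _ ≤ 1 + 1 / 4 * 1 := by
          gcongr
          · exact h1 y
          · exact (kr_lt hs).le
      _ ≤ 2 := by norm_num

/-- joint smoothness in the radius and the centre, for smooth functions -/
lemma moll_joint {G : E n → E n} (hG : ContDiff ℝ ∞ G) :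
    ContDiff ℝ ∞ (fun q : E n × ℝ => ∫ s, kr n s • G (q.1 + q.2 • s)) := by
  let ζ : ContDiffBump (0 : E n) := ⟨1, 2, by norm_num, by norm_num⟩
  have hg : ContDiffOn ℝ ∞ (fun p : (E n × ℝ) × E n => ζ p.2 • G (p.1.1 - p.1.2 • p.2))
      (univ ×ˢ univ) := by
    apply ContDiff.contDiffOn
    have a1 : ContDiff ℝ ∞ (fun p : (E n × ℝ) × E n => ζ p.2) := ζ.contDiff.comp contDiff_snd
    have a2 : ContDiff ℝ ∞ (fun p : (E n × ℝ) × E n => G (p.1.1 - p.1.2 • p.2)) := by
      apply hG.comp
      fun_prop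
    exact a1.smul a2
  have key := contDiffOn_convolution_right_with_param_comp (μ := (volume : Measure (E n)))
    (f := kr n) (g := fun (p : E n × ℝ) (w : E n) => ζ w • G (p.1 - p.2 • w))
    (k := closedBall (0 : E n) 2) (v := fun _ => 0) (s := univ)
    (n := ⊤) (ContinuousLinearMap.lsmul ℝ ℝ) contDiffOn_const isOpen_univ
    (isCompact_closedBall _ _) (by
      intro p w _ hw
      rw [mem_closedBall_zero_iff, not_le] at hw
      show ζ w • G (p.1 - p.2 • w) = 0
      rw [ζ.zero_of_le_dist (by rw [dist_zero_right]; exact hw.le), zero_smul])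
    kr_integrable.locallyIntegrable hg
  rw [contDiffOn_univ] at key
  convert key using 2 with p
  unfold convolution
  congr 1
  funext s
  simp only [ContinuousLinearMap.lsmul_apply, zero_sub, smul_neg, sub_neg_eq_add]
  by_cases hs : kr n s = 0
  · rw [hs, zero_smul, zero_smul]
  · rw [ζ.one_of_mem_closedBall, one_smul]
    rw [mem_closedBall_zero_iff, norm_neg]
    exact (kr_lt hs).le

/-- smoothness where the radius vanishes -/
lemma moll_null {G : E n → E n} {c : E n → ℝ} (hc : ContDiff ℝ ∞ c) (h0 : ∀ z, 0 ≤ c z) {z : E n}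
    (hz : c z = 0) (hG : ∀ᶠ y in 𝓝 z, ContDiffAt ℝ ∞ G y) :
    ContDiffAt ℝ ∞ (Moll n G c) z ∧ fderiv ℝ (Moll n G c) z = fderiv ℝ G z := by
  obtain ⟨ε, hε, hb⟩ := Metric.eventually_nhds_iff_ball.1 hG
  let χ : ContDiffBump z := ⟨ε / 3, ε / 2, by positivity, by linarith⟩
  obtain ⟨Gh, hGh⟩ : ∃ Gh : E n → E n, Gh = fun y => χ y • G y := ⟨_, rfl⟩
  have hsm : ContDiff ℝ ∞ Gh := by
    rw [contDiff_iff_contDiffAt]
    intro y
    by_cases hy : y ∈ ball z ε
    · rw [hGh]
      exact χ.contDiff.contDiffAt.smul (hb y hy)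
    · have : Gh =ᶠ[𝓝 y] fun _ => 0 := by
        have h1 : ∀ᶠ w in 𝓝 y, ε / 2 < dist w z := by
          rw [mem_ball, not_lt] at hy
          exact (continuous_id.dist continuous_const).continuousAt.eventually_const_lt
            (by show ε / 2 < dist y z; linarith)
        filter_upwards [h1] with w hw
        rw [hGh]
        show χ w • G w = 0
        rw [χ.zero_of_le_dist hw.le, zero_smul]
      exact contDiffAt_const.congr_of_eventuallyEq this
  have hG1 : ∀ y ∈ ball z (ε / 3), Gh y = G y := by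
    intro y hy
    rw [hGh]
    show χ y • G y = G y
    rw [χ.one_of_mem_closedBall (ball_subset_closedBall hy), one_smul]
  have hjoint := moll_joint hsm
  have hcomp : ContDiffAt ℝ ∞ (fun y => ∫ s, kr n s • Gh (y + c y • s)) z :=
    (hjoint.comp (contDiff_id.prodMk hc)).contDiffAt
  have hev : Moll n G c =ᶠ[𝓝 z] fun y => ∫ s, kr n s • Gh (y + c y • s) := by
    have h1 : ∀ᶠ y in 𝓝 z, dist y z + c y < ε / 3 := by
      have h2 : Continuous fun y => dist y z + c y := by
        have := hc.continuous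
        fun_prop
      apply h2.continuousAt.eventually_lt_const
      show dist z z + c z < ε / 3
      rw [dist_self, hz]
      linarith
    filter_upwards [h1] with y hy
    apply moll_congr (c' := c)
    intro s hs
    rw [hG1]
    rw [mem_ball, dist_eq_norm] at *
    calc ‖y + c y • s - z‖ = ‖(y - z) + c y • s‖ := by congr 1; abel
      _ ≤ ‖y - z‖ + ‖c y • s‖ := norm_add_le _ _
      _ = ‖y - z‖ + c y * ‖s‖ := by rw [norm_smul, Real.norm_of_nonneg (h0 y)]
      _ ≤ ‖y - z‖ + c y * 1 := by
          gcongr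
          exact h0 y
      _ < ε / 3 := by linarith
  refine ⟨hcomp.congr_of_eventuallyEq hev, ?_⟩
  rw [hev.fderiv_eq]
  have hH : HasFDerivAt (fun q : E n × ℝ => ∫ s, kr n s • Gh (q.1 + q.2 • s))
      (fderiv ℝ (fun q : E n × ℝ => ∫ s, kr n s • Gh (q.1 + q.2 • s)) (z, 0)) (z, 0) :=
    ((hjoint.differentiable (by simp)).differentiableAt).hasFDerivAt
  have hcz : HasFDerivAt c (0 : E n →L[ℝ] ℝ) z := by
    have h1 : IsLocalMin c z := by
      apply Eventually.of_forall
      intro y
      rw [hz]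
      exact h0 y
    have h2 := ((hc.differentiable (by simp)).differentiableAt (x := z)).hasFDerivAt
    rwa [h1.fderiv_eq_zero] at h2
  have e1 : HasFDerivAt (fun y : E n => (y, c y))
      ((ContinuousLinearMap.id ℝ (E n)).prod (0 : E n →L[ℝ] ℝ)) z :=
    (hasFDerivAt_id z).prodMk hcz
  have e2 : HasFDerivAt (fun y : E n => (y, (0 : ℝ)))
      ((ContinuousLinearMap.id ℝ (E n)).prod (0 : E n →L[ℝ] ℝ)) z :=
    (hasFDerivAt_id z).prodMk (hasFDerivAt_const _ _)
  obtain ⟨HH, hHH⟩ : ∃ HH : E n × ℝ → E n, HH = fun q => ∫ s, kr n s • Gh (q.1 + q.2 • s) :=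
    ⟨_, rfl⟩
  rw [← hHH] at hH
  have f1 : HasFDerivAt (HH ∘ fun y : E n => (y, c y)) ((fderiv ℝ HH (z, 0)).comp
      ((ContinuousLinearMap.id ℝ (E n)).prod (0 : E n →L[ℝ] ℝ))) z :=
    HasFDerivAt.comp z (f := fun y : E n => (y, c y)) (by rw [hz]; exact hH) e1
  have f2 : HasFDerivAt (HH ∘ fun y : E n => (y, (0 : ℝ))) ((fderiv ℝ HH (z, 0)).comp
      ((ContinuousLinearMap.id ℝ (E n)).prod (0 : E n →L[ℝ] ℝ))) z :=
    HasFDerivAt.comp z (f := fun y : E n => (y, (0 : ℝ))) hH e2
  have g1 : (fun y => ∫ s, kr n s • Gh (y + c y • s)) = HH ∘ fun y : E n => (y, c y) := by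
    rw [hHH]; rfl
  rw [g1, f1.fderiv, ← f2.fderiv]
  apply Filter.EventuallyEq.fderiv_eq
  filter_upwards [ball_mem_nhds z (by positivity : 0 < ε / 3)] with y hy
  rw [← hG1 y hy, hHH]
  show ∫ s, kr n s • Gh (y + (0 : ℝ) • s) = Gh y
  have : ∀ s, kr n s • Gh (y + (0 : ℝ) • s) = kr n s • Gh y := by
    intro s
    rw [zero_smul, add_zero]
  simp only [this]
  rw [integral_smul_const, kr_int, one_smul]

theorem mollS : StMollS := by
  intro n G c hG hc h0 h1 h2
  refine ⟨moll_cont hG hc.continuous h0 h1, fun z hz => moll_const hz,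
    fun z hz => moll_pos hG hc h1 h2 hz, fun z _ hz hGz => moll_null hc h0 hz hGz⟩

end Pool.Agent.Y954.SH
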